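import Mathlib

set_option autoImplicit false

namespace Pool.Agent.H1.Rainbow

/-- adjacency table -/
def adjB (x y : Fin 6) : Bool :=
  ([[false, true, false, true, false, false], [false, false, false, true, true, false], [true, true, false, false, false, true], [false, false, true, false, true, true], [true, false, true, false, false, true], [true, true, false, false, false, false]] : List (List Bool)).getD x.val [] |>.getD y.val false

/-- colour table -/
def col (x y : Fin 6) : ℕ :=
  ([[0, 0, 1, 2, 3, 2], [0, 0, 3, 3, 0, 1], [1, 3, 0, 1, 0, 3], [2, 3, 1, 0, 2, 3], [3, 0, 0, 2, 0, 1], [2, 1, 3, 3, 1, 0]] : List (List ℕ)).getD x.val [] |>.getD y.val 0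

/-- bit mask of the vertices reachable from `v` in colour `a` -/
def reach (v : Fin 6) (a : Fin 4) : ℕ :=
  ([[23, 1, 25, 1], [22, 2, 2, 42], [4, 5, 4, 46], [8, 13, 24, 40], [20, 50, 16, 17], [32, 34, 57, 32]] : List (List ℕ)).getD v.val [] |>.getD a.val 0

/-- a vertex not reachable from `v` in one colour -/
def wit (v : Fin 6) : Fin 6 := ![5, 0, 4, 1, 3, 2] v

def adj (x y : Fin 6) : Prop := adjB x y = true

instance (x y : Fin 6) : Decidable (adj x y) := inferInstanceAs (Decidable (adjB x y = true))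

theorem asym : ∀ x y : Fin 6, adj x y → ¬ adj y x := by decide +kernel
theorem total : ∀ x y : Fin 6, x ≠ y → adj x y ∨ adj y x := by decide +kernel
theorem col_lt : ∀ x y : Fin 6, col x y < 4 := by decide +kernel
theorem wit_ne : ∀ v : Fin 6, wit v ≠ v := by decide +kernel
theorem reach_self : ∀ (v : Fin 6) (a : Fin 4), (reach v a).testBit v.val = true := by
  decide +kernel
theorem reach_wit : ∀ (v : Fin 6) (a : Fin 4), (reach v a).testBit (wit v).val = false := by
  decide +kernel
theorem reach_step : ∀ (v : Fin 6) (a : Fin 4) (x y : Fin 6),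
    ((reach v a).testBit x.val = true ∧ adj x y ∧ col x y = a.val) →
    (reach v a).testBit y.val = true := by decide +kernel

theorem no3 : ∀ x y z : Fin 6, ¬ (adj x y ∧ adj y z ∧ adj z x ∧ col x y ≠ col y z ∧
    col y z ≠ col z x ∧ col x y ≠ col z x) := by decide +kernel

theorem no4 : ∀ x y z t : Fin 6, ¬ (adj x y ∧ adj y z ∧ adj z t ∧ adj t x ∧ col x y ≠ col y z ∧
    col x y ≠ col z t ∧ col x y ≠ col t x ∧ col y z ≠ col z t ∧ col y z ≠ col t x ∧
    col z t ≠ col t x) := by decide +kernel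

theorem no_reach (v : Fin 6) (a : ℕ) :
    ¬ Relation.TransGen (fun x y : Fin 6 => adj x y ∧ col x y = a) v (wit v) := by
  intro h
  by_cases ha : a < 4
  · have key : ∀ y, Relation.TransGen (fun x y : Fin 6 => adj x y ∧ col x y = a) v y →
        (reach v ⟨a, ha⟩).testBit y.val = true := by
      intro y hy
      induction hy with
      | single h1 => exact reach_step v ⟨a, ha⟩ v _ ⟨reach_self v ⟨a, ha⟩, h1.1, h1.2⟩
      | tail _ h1 ih => exact reach_step v ⟨a, ha⟩ _ _ ⟨ih, h1.1, h1.2⟩
    have h1 := key _ h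
    rw [reach_wit] at h1
    exact Bool.false_ne_true h1
  · cases h with
    | single h1 => have := col_lt v (wit v); omega
    | @tail b _ _ h1 => have h2 := h1.2; have h3 := col_lt b (wit v); omega

theorem no_rainbow (k : ℕ) (f : ℕ → Fin 6) (hk : 3 ≤ k)
    (h1 : ∀ i : ℕ, i < k → adj (f i) (f ((i + 1) % k)))
    (h2 : ∀ i j : ℕ, i < k → j < k →
      col (f i) (f ((i + 1) % k)) = col (f j) (f ((j + 1) % k)) → i = j) : False := by
  have hk4 : k ≤ 4 := by
    by_contra hlt
    push Not at hlt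
    let g : Fin 5 → Fin 4 := fun i => ⟨col (f i.val) (f ((i.val + 1) % k)), col_lt _ _⟩
    obtain ⟨i, j, hij, hg⟩ := Fintype.exists_ne_map_eq_of_card_lt g (by simp)
    have hv : col (f i.val) (f ((i.val + 1) % k)) = col (f j.val) (f ((j.val + 1) % k)) :=
      congrArg Fin.val hg
    exact hij (Fin.ext (h2 i.val j.val (by omega) (by omega) hv))
  have hk' : k = 3 ∨ k = 4 := by omega
  rcases hk' with rfl | rfl
  · have a0 := h1 0 (by norm_num)
    have a1 := h1 1 (by norm_num)
    have a2 := h1 2 (by norm_num)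
    have b01 : ¬ (col (f 0) (f ((0 + 1) % 3)) = col (f 1) (f ((1 + 1) % 3))) := fun h => absurd (h2 0 1 (by norm_num) (by norm_num) h) (by norm_num)
    have b12 : ¬ (col (f 1) (f ((1 + 1) % 3)) = col (f 2) (f ((2 + 1) % 3))) := fun h => absurd (h2 1 2 (by norm_num) (by norm_num) h) (by norm_num)
    have b02 : ¬ (col (f 0) (f ((0 + 1) % 3)) = col (f 2) (f ((2 + 1) % 3))) := fun h => absurd (h2 0 2 (by norm_num) (by norm_num) h) (by norm_num)
    exact no3 (f 0) (f 1) (f 2) ⟨a0, a1, a2, b01, b12, b02⟩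
  · have a0 := h1 0 (by norm_num)
    have a1 := h1 1 (by norm_num)
    have a2 := h1 2 (by norm_num)
    have a3 := h1 3 (by norm_num)
    have b01 : ¬ (col (f 0) (f ((0 + 1) % 4)) = col (f 1) (f ((1 + 1) % 4))) := fun h => absurd (h2 0 1 (by norm_num) (by norm_num) h) (by norm_num)
    have b02 : ¬ (col (f 0) (f ((0 + 1) % 4)) = col (f 2) (f ((2 + 1) % 4))) := fun h => absurd (h2 0 2 (by norm_num) (by norm_num) h) (by norm_num)
    have b03 : ¬ (col (f 0) (f ((0 + 1) % 4)) = col (f 3) (f ((3 + 1) % 4))) := fun h => absurd (h2 0 3 (by norm_num) (by norm_num) h) (by norm_num)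
    have b12 : ¬ (col (f 1) (f ((1 + 1) % 4)) = col (f 2) (f ((2 + 1) % 4))) := fun h => absurd (h2 1 2 (by norm_num) (by norm_num) h) (by norm_num)
    have b13 : ¬ (col (f 1) (f ((1 + 1) % 4)) = col (f 3) (f ((3 + 1) % 4))) := fun h => absurd (h2 1 3 (by norm_num) (by norm_num) h) (by norm_num)
    have b23 : ¬ (col (f 2) (f ((2 + 1) % 4)) = col (f 3) (f ((3 + 1) % 4))) := fun h => absurd (h2 2 3 (by norm_num) (by norm_num) h) (by norm_num)
    exact no4 (f 0) (f 1) (f 2) (f 3) ⟨a0, a1, a2, a3, b01, b02, b03, b12, b13, b23⟩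

end Pool.Agent.H1.Rainbow
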